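import Pool.Agent.N112.WM.Stm

/-!
# Project WM, WM3: duality and generators
-/

set_option autoImplicit false

namespace Pool.Agent.N490.WM

open Finset
open Pool.Agent.N112.WM

universe u

theorem mem_perp_closure {H : Type*} [AddCommGroup H] (X : Set (AddChar H ℂ)) (h : H) :
    h ∈ perp (AddSubgroup.closure X) ↔ ∀ χ ∈ X, χ h = 1 := by
  rw [mem_perp]
  constructor
  · exact fun hh χ hχ => hh χ (AddSubgroup.subset_closure hχ)
  · intro hh χ hχ
    induction hχ using AddSubgroup.closure_induction with
    | mem χ hχ => exact hh χ hχ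
    | zero => exact AddChar.zero_apply h
    | add a b _ _ ha hb => rw [AddChar.add_apply, ha, hb, one_mul]
    | neg a _ ha =>
      rw [AddChar.neg_apply, AddChar.map_neg_eq_inv, ha, inv_one]

/-- one character -/
theorem one_char {H : Type u} [AddCommGroup H] [Finite H] (W : AddSubgroup H)
    (χ : AddChar H ℂ) : ∃ w ∈ W, ∀ h ∈ W, ∃ n : ℤ, χ (h - n • w) = 1 := by
  let f : Multiplicative W →* ℂˣ :=
    ((χ.toMonoidHom).comp (AddMonoidHom.toMultiplicative W.subtype)).toHomUnits
  have hf : ∀ x : W, ((f (Multiplicative.ofAdd x) : ℂˣ) : ℂ) = χ x := fun x => rfl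
  have : Finite f.range := Finite.of_surjective f.rangeRestrict f.rangeRestrict_surjective
  obtain ⟨⟨_, ⟨w, rfl⟩⟩, hg⟩ := IsCyclic.exists_generator (α := f.range)
  refine ⟨(Multiplicative.toAdd w : W), (Multiplicative.toAdd w).2, fun h hh => ?_⟩
  obtain ⟨n, hn⟩ := Subgroup.mem_zpowers_iff.1 (hg ⟨f (Multiplicative.ofAdd ⟨h, hh⟩), _, rfl⟩)
  refine ⟨n, ?_⟩
  have h1 := congrArg (fun y : f.range => ((y : ℂˣ) : ℂ)) hn
  simp only [SubgroupClass.coe_zpow, Units.val_zpow_eq_zpow_val] at h1
  have h2 : χ ((Multiplicative.toAdd w : W) : H) ^ n = χ h := h1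
  rw [sub_eq_add_neg, AddChar.map_add_eq_mul, AddChar.map_neg_eq_inv, AddChar.map_zsmul_eq_zpow, h2]
  have h3 : χ h ≠ 0 := by
    have h4 : χ (h + -h) = 1 := by rw [add_neg_cancel, AddChar.map_zero_eq_one]
    intro h5
    rw [AddChar.map_add_eq_mul, h5, zero_mul] at h4
    exact zero_ne_one h4
  exact mul_inv_cancel₀ h3

theorem gens {H : Type u} [AddCommGroup H] [Finite H] [DecidableEq H]
    (X : Finset (AddChar H ℂ)) : ∀ W : AddSubgroup H, ∃ S : Finset H, S.card ≤ X.card ∧
    W ≤ (W ⊓ perp (AddSubgroup.closure (X : Set (AddChar H ℂ)))) ⊔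
      AddSubgroup.closure (S : Set H) := by
  classical
  induction X using Finset.induction_on with
  | empty =>
    intro W
    refine ⟨∅, le_rfl, ?_⟩
    refine le_trans ?_ le_sup_left
    refine le_inf le_rfl fun h _ => ?_
    rw [mem_perp_closure]
    intro χ hχ
    simp at hχ
  | insert χ X hχX ih =>
    intro W
    obtain ⟨w, hw, hgen⟩ := one_char W χ
    obtain ⟨S, hS1, hS2⟩ := ih (W ⊓ perp (AddSubgroup.closure ({χ} : Set (AddChar H ℂ))))
    refine ⟨insert w S, ?_, ?_⟩
    · rw [Finset.card_insert_of_notMem hχX]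
      exact (Finset.card_insert_le _ _).trans (by omega)
    · intro h hh
      obtain ⟨n, hn⟩ := hgen h hh
      have h1 : h - n • w ∈ W ⊓ perp (AddSubgroup.closure ({χ} : Set (AddChar H ℂ))) := by
        refine ⟨W.sub_mem hh (W.zsmul_mem hw n), ?_⟩
        show h - n • w ∈ perp _
        rw [mem_perp_closure]
        intro ψ hψ
        rw [Set.mem_singleton_iff.1 hψ]
        exact hn
      have h2 := hS2 h1
      have h3 : (W ⊓ perp (AddSubgroup.closure ({χ} : Set (AddChar H ℂ)))) ⊓
          perp (AddSubgroup.closure (X : Set (AddChar H ℂ))) ≤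
          W ⊓ perp (AddSubgroup.closure ((insert χ X : Finset (AddChar H ℂ)) : Set (AddChar H ℂ))) := by
        intro x hx
        refine ⟨hx.1.1, ?_⟩
        show x ∈ perp _
        rw [mem_perp_closure]
        intro ψ hψ
        rw [Finset.coe_insert] at hψ
        rcases hψ with hψ | hψ
        · exact (mem_perp_closure _ _).1 hx.1.2 ψ hψ
        · exact (mem_perp_closure _ _).1 hx.2 ψ hψ
      have h4 : AddSubgroup.closure (S : Set H) ≤
          AddSubgroup.closure ((insert w S : Finset H) : Set H) :=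
        AddSubgroup.closure_mono (by rw [Finset.coe_insert]; exact Set.subset_insert _ _)
      have h5 := (sup_le_sup h3 h4) h2
      have h6 : n • w ∈ (W ⊓ perp (AddSubgroup.closure
          ((insert χ X : Finset (AddChar H ℂ)) : Set (AddChar H ℂ)))) ⊔
          AddSubgroup.closure ((insert w S : Finset H) : Set H) := by
        apply AddSubgroup.zsmul_mem
        apply (le_sup_right : _ ≤ (W ⊓ perp (AddSubgroup.closure
          ((insert χ X : Finset (AddChar H ℂ)) : Set (AddChar H ℂ)))) ⊔ _)
        apply AddSubgroup.subset_closure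
        rw [Finset.coe_insert]
        exact Set.mem_insert _ _
      have h7 := AddSubgroup.add_mem _ h5 h6
      rwa [sub_add_cancel] at h7

/-- WM3 -/
theorem rank : StmRank.{u} := by
  intro H _ _ _
  constructor
  · intro X
    obtain ⟨S, h1, h2⟩ := gens X ⊤
    refine ⟨S, h1, ?_⟩
    rw [top_inf_eq] at h2
    exact top_le_iff.1 h2
  · intro p₀ hT p hp hp0 χ hχ
    have hinj : Function.Injective fun x : H => p • x := by
      intro x y hxy
      have h1 : p • (x - y) = 0 := by
        rw [nsmul_sub]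
        exact sub_eq_zero.2 hxy
      exact sub_eq_zero.1 (hT p hp hp0 _ h1)
    have hsur := Finite.surjective_of_injective hinj
    ext h
    obtain ⟨h', rfl⟩ := hsur h
    show χ (p • h') = (0 : AddChar H ℂ) (p • h')
    rw [AddChar.map_nsmul_eq_pow, AddChar.zero_apply, ← AddChar.nsmul_apply, hχ, AddChar.zero_apply]

end Pool.Agent.N490.WM
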